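import Pool.Agent.helper17.MLG.Spec

/-!
# MP_84f457_gt, project mlg, row AVE
-/

set_option autoImplicit false
set_option linter.unusedSectionVars false

namespace Pool.Agent.MLG

open MeasureTheory Set Filter Topology Module
open scoped ENNReal ContDiff

theorem AVE (hRTE : RTE_stmt) (hMES : MES_stmt) : AVE_stmt := by
  intro V _ _ _ _ _ _ hV
  haveI : (vol V).IsHaarMeasure := (hMES V hV).1
  haveI := top hV
  obtain ⟨C, r₀, hC, hr₀, hR⟩ := hRTE V hV
  refine ⟨C, r₀, hC, hr₀, fun A hA r hr hrr => ?_⟩
  have hinj : ∀ x : V, Function.Injective (fun y : V => x * y) := fun x => mul_right_injective x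
  have hbl : ∀ (x g : V), x * g ∈ bl x r ↔ g ∈ Metric.ball (1 : V) r := by
    intro x g
    unfold bl
    exact (hinj x).mem_set_image
  have hblm : ∀ x : V, MeasurableSet (bl x r) := by
    intro x
    have : bl x r = (fun y : V => x⁻¹ * y) ⁻¹' Metric.ball (1 : V) r := by
      ext y
      have := hbl x (x⁻¹ * y)
      rwa [mul_inv_cancel_left] at this
    rw [this]
    exact measurableSet_ball.preimage (measurable_const_mul _)
  -- the inner integral
  have h1 : ∀ x : V, vol V (bl x r \ A) = ∫⁻ g in Metric.ball (1 : V) r,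
      (Aᶜ).indicator (fun _ => (1 : ℝ≥0∞)) (x * g) ∂(vol V) := by
    intro x
    rw [← lintegral_indicator_one ((hblm x).diff hA),
      ← lintegral_mul_left_eq_self _ x, ← lintegral_indicator measurableSet_ball]
    refine lintegral_congr fun g => ?_
    by_cases hg : g ∈ Metric.ball (1 : V) r
    · rw [indicator_of_mem hg]
      by_cases hxg : x * g ∈ A
      · rw [indicator_of_notMem (fun h => h.2 hxg), indicator_of_notMem (show x * g ∉ Aᶜ from fun h => h hxg)]
      · rw [indicator_of_mem (show x * g ∈ bl x r \ A from ⟨(hbl x g).2 hg, hxg⟩),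
          indicator_of_mem (show x * g ∈ Aᶜ from hxg)]
        rfl
    · rw [indicator_of_notMem hg, indicator_of_notMem (fun h => hg ((hbl x g).1 h.1))]
  simp_rw [h1]
  have hmeas : Measurable (Function.uncurry fun (x g : V) =>
      (Aᶜ).indicator (fun _ => (1 : ℝ≥0∞)) (x * g)) := by
    have : Measurable ((Aᶜ).indicator (fun _ => (1 : ℝ≥0∞))) := measurable_const.indicator hA.compl
    exact this.comp (measurable_fst.mul measurable_snd)
  rw [lintegral_lintegral_swap hmeas.aemeasurable]
  have h2 : ∀ g ∈ Metric.ball (1 : V) r, ∫⁻ x in A, (Aᶜ).indicator (fun _ => (1 : ℝ≥0∞)) (x * g) ∂(vol V) ≤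
      ENNReal.ofReal (C * r) * per A := by
    intro g hg
    have hg' : ‖g - 1‖ < r := by
      rw [← dist_eq_norm]
      exact hg
    have hm : MeasurableSet {x : V | x ∈ A ∧ x * g ∉ A} :=
      hA.inter ((measurable_mul_const g) hA.compl)
    have h3 : ∫⁻ x in A, (Aᶜ).indicator (fun _ => (1 : ℝ≥0∞)) (x * g) ∂(vol V) =
        vol V {x | x ∈ A ∧ x * g ∉ A} := by
      rw [← lintegral_indicator hA, ← lintegral_indicator_one hm]
      refine lintegral_congr fun x => ?_
      by_cases hx : x ∈ A
      · rw [indicator_of_mem hx]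
        by_cases hxg : x * g ∈ A
        · rw [indicator_of_notMem (show x * g ∉ Aᶜ from fun h => h hxg), indicator_of_notMem (fun h => h.2 hxg)]
        · rw [indicator_of_mem (show x * g ∈ Aᶜ from hxg),
            indicator_of_mem (show x ∈ {x : V | x ∈ A ∧ x * g ∉ A} from ⟨hx, hxg⟩)]
          rfl
      · rw [indicator_of_notMem hx, indicator_of_notMem (fun h => hx h.1)]
    rw [h3]
    refine le_trans le_self_add ((hR A hA g (hg'.le.trans hrr)).trans ?_)
    exact mul_le_mul_left (ENNReal.ofReal_le_ofReal (mul_le_mul_of_nonneg_left hg'.le hC.le)) _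
  refine (setLIntegral_mono' measurableSet_ball h2).trans (le_of_eq ?_)
  rw [setLIntegral_const]
  ring

end Pool.Agent.MLG
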