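import Pool.Agent.helper17.MLG.Spec

/-!
# MP_84f457_gt, project mlg, row CON
-/

set_option autoImplicit false
set_option linter.unusedSectionVars false

namespace Pool.Agent.MLG

open MeasureTheory Set Filter Topology Module
open scoped ENNReal ContDiff

theorem CON (hMID : MID_stmt) (hRAN : RAN_stmt) (hFIN : FIN_stmt) : CON_stmt := by
  intro V _ _ _ _ _ _ hV hn
  have h1 := hRAN (Ip V) (fun v _ => ENNReal.toReal_nonneg) (fun v s hs hsv => hMID V hV hn v s hs hsv)
  refine ⟨h1.1, h1.2, fun v hv => ?_⟩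
  obtain ⟨E, hE, hv', hper⟩ := hFIN V hV hn v hv
  have h2 : prof V v ≤ per E := iInf_le_of_le E (iInf_le_of_le hE (iInf_le_of_le hv' le_rfl))
  have h3 : prof V v ≠ ⊤ := (lt_of_le_of_lt h2 hper).ne
  exact (ENNReal.ofReal_toReal h3).symm

end Pool.Agent.MLG
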