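import Pool.Agent.helper17.MLG.Spec

/-!
# MP_84f457_gt, project mlg, row MOL
-/

set_option autoImplicit false
set_option linter.unusedSectionVars false

namespace Pool.Agent.MLG

open MeasureTheory Set Filter Topology Module
open scoped ENNReal ContDiff

theorem MOL (hMES : MES_stmt) : MOL_stmt := by
  intro V _ _ _ _ _ _ hV U hU
  haveI : (vol V).IsHaarMeasure := (hMES V hV).1
  obtain ⟨r, hr, hrU⟩ := Metric.nhds_basis_closedBall.mem_iff.1 hU
  obtain ⟨φ, hφ⟩ : ∃ φ : ContDiffBump (1 : V), φ.rOut = r :=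
    ⟨⟨r / 2, r, by positivity, by linarith⟩, rfl⟩
  have hφ1 : φ (1 : V) = 1 := φ.one_of_mem_closedBall (Metric.mem_closedBall_self φ.rIn_pos.le)
  have hpos : 0 < ∫ x, φ x ∂(vol V) := by
    refine Continuous.integral_pos_of_hasCompactSupport_nonneg_nonzero (x := (1 : V)) φ.continuous
      φ.hasCompactSupport (fun x => φ.nonneg) ?_
    rw [hφ1]
    exact one_ne_zero
  refine ⟨fun x => (∫ x, φ x ∂(vol V))⁻¹ * φ x, ⟨?_, ?_, ?_, ?_⟩, ?_, ?_⟩
  · exact contDiff_const.mul φ.contDiff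
  · exact φ.hasCompactSupport.mul_left
  · intro x
    exact mul_nonneg (inv_nonneg.2 hpos.le) φ.nonneg
  · rw [integral_const_mul]
    exact inv_mul_cancel₀ hpos.ne'
  · refine subset_trans ?_ hrU
    have h1 : tsupport (fun x => (∫ x, φ x ∂(vol V))⁻¹ * φ x) ⊆ tsupport φ := by
      refine closure_mono ?_
      intro x hx
      rw [Function.mem_support] at hx ⊢
      exact right_ne_zero_of_mul hx
    rw [φ.tsupport_eq, hφ] at h1
    exact h1
  · show 0 < (∫ x, φ x ∂(vol V))⁻¹ * φ 1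
    rw [hφ1, mul_one]
    exact inv_pos.2 hpos

end Pool.Agent.MLG
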