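import Pool.Agent.helper17.MLG.Spec

/-!
# MP_84f457_gt, project mlg, row POI
-/

set_option autoImplicit false
set_option linter.unusedSectionVars false

namespace Pool.Agent.MLG

open MeasureTheory Set Filter Topology Module
open scoped ENNReal ContDiff

/-- the outside of a ball is connected -/
theorem POI_conn (V : Type) [NormedAddCommGroup V] [NormedSpace ℝ V] (h : 1 < Module.rank ℝ V)
    (R : ℝ) (hR : 0 ≤ R) : IsPreconnected {x : V | R < ‖x‖} := by
  have h1 : IsPreconnected ((Ioi R) ×ˢ (Metric.sphere (0 : V) 1)) :=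
    isPreconnected_Ioi.prod (isPreconnected_sphere h 0 1)
  have h2 : IsPreconnected ((fun p : ℝ × V => p.1 • p.2) '' ((Ioi R) ×ˢ (Metric.sphere (0 : V) 1))) :=
    h1.image _ (continuous_fst.smul continuous_snd).continuousOn
  have h3 : {x : V | R < ‖x‖} = (fun p : ℝ × V => p.1 • p.2) '' ((Ioi R) ×ˢ (Metric.sphere (0 : V) 1)) := by
    ext x
    constructor
    · intro hx
      have hx' : R < ‖x‖ := hx
      have hx0 : 0 < ‖x‖ := lt_of_le_of_lt hR hx'
      refine ⟨(‖x‖, ‖x‖⁻¹ • x), ⟨hx', ?_⟩, ?_⟩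
      · rw [mem_sphere_zero_iff_norm, norm_smul, norm_inv, norm_norm, inv_mul_cancel₀ hx0.ne']
      · show ‖x‖ • (‖x‖⁻¹ • x) = x
        rw [smul_smul, mul_inv_cancel₀ hx0.ne', one_smul]
    · rintro ⟨⟨t, y⟩, ⟨ht, hy⟩, rfl⟩
      have ht' : R < t := ht
      have hy' : ‖y‖ = 1 := mem_sphere_zero_iff_norm.1 hy
      show R < ‖t • y‖
      rw [norm_smul, hy', mul_one, Real.norm_eq_abs]
      exact lt_of_lt_of_le ht' (le_abs_self t)
  rw [h3]
  exact h2

theorem POI : POI_stmt := by
  intro V _ _ _ hn β hβ hsupp hsym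
  have hrank : 1 < Module.rank ℝ V := by
    rw [← Module.finrank_eq_rank]
    exact_mod_cast hn
  obtain ⟨f, hf⟩ := convex_univ.exists_forall_hasFDerivAt_of_fderiv_symmetric (E := V) (F := ℝ) isOpen_univ
    ((hβ.differentiable one_ne_zero).differentiableOn) (fun a _ x y => hsym a x y)
  obtain ⟨R₁, hR₁⟩ := hsupp.isCompact.isBounded.subset_closedBall (0 : V)
  obtain ⟨R, hR0, hR⟩ : ∃ R : ℝ, 0 ≤ R ∧ tsupport β ⊆ Metric.closedBall (0 : V) R :=
    ⟨max R₁ 0, le_max_right _ _, hR₁.trans (Metric.closedBall_subset_closedBall (le_max_left _ _))⟩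
  have hzero : ∀ x : V, R < ‖x‖ → β x = 0 := by
    intro x hx
    by_contra hne
    have h1 := hR (subset_tsupport _ (Function.mem_support.2 hne))
    rw [mem_closedBall_zero_iff] at h1
    exact absurd h1 (not_le.2 hx)
  have hopen : IsOpen {x : V | R < ‖x‖} := isOpen_lt continuous_const continuous_norm
  have hfd : ∀ x, HasFDerivAt f (β x) x := fun x => hf x (mem_univ x)
  obtain ⟨c, hc⟩ := hopen.exists_is_const_of_fderiv_eq_zero (𝕜 := ℝ) (f := f) (POI_conn V hrank R hR0)
    (fun x _ => (hfd x).differentiableAt.differentiableWithinAt)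
    (fun x hx => by
      rw [(hfd x).fderiv, hzero x hx]
      rfl)
  have hΨ : ∀ x, HasFDerivAt (fun y => f y - c) (β x) x := fun x => (hfd x).sub_const c
  refine ⟨fun x => f x - c, ?_, ?_, fun x => (hΨ x).fderiv⟩
  · rw [contDiff_one_iff_fderiv]
    refine ⟨fun x => (hΨ x).differentiableAt, ?_⟩
    have : fderiv ℝ (fun y => f y - c) = β := funext fun x => (hΨ x).fderiv
    rw [this]
    exact hβ.continuous
  · refine HasCompactSupport.intro (isCompact_closedBall (0 : V) R) fun x hx => ?_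
    rw [mem_closedBall_zero_iff, not_le] at hx
    show f x - c = 0
    rw [hc x hx, sub_self]

end Pool.Agent.MLG
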