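import Pool.Agent.helper17.MLG.Spec

/-!
# MP_84f457_gt, project mlg, row TRI
-/

set_option autoImplicit false
set_option linter.unusedSectionVars false

namespace Pool.Agent.MLG

open MeasureTheory Set Filter Topology Module
open scoped ENNReal ContDiff

theorem TRI (hMES : MES_stmt) : TRI_stmt := by
  intro V _ _ _ _ _ _ hV F m hF hm heq x
  haveI : (vol V).IsHaarMeasure := (hMES V hV).1
  haveI := top hV
  obtain ⟨w, hw⟩ : ∃ w : V, w = ∫ g, m g • F (g⁻¹ * x) ∂(vol V) := ⟨_, rfl⟩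
  have hx := heq x
  rw [← hw] at hx
  have hG : Continuous (fun g : V => F (g⁻¹ * x)) := hF.comp (continuous_inv.mul continuous_const)
  have hmc : Continuous m := hm.smooth.continuous
  have i1 : Integrable (fun g => m g • F (g⁻¹ * x)) (vol V) :=
    (hmc.smul hG).integrable_of_hasCompactSupport hm.supp.smul_right
  have i2 : Integrable (fun g => m g * ‖F (g⁻¹ * x)‖) (vol V) :=
    (hmc.mul hG.norm).integrable_of_hasCompactSupport hm.supp.mul_right
  -- the general step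
  have key : ∀ ν : V, ‖ν‖ ≤ 1 → inner ℝ ν w = ‖w‖ → ∀ g, m g ≠ 0 → inner ℝ ν (F (g⁻¹ * x)) = ‖F (g⁻¹ * x)‖ := by
    intro ν hν hνw g hg
    have hn : ∀ g, inner ℝ ν (F (g⁻¹ * x)) ≤ ‖F (g⁻¹ * x)‖ := fun g =>
      (real_inner_le_norm _ _).trans (mul_le_of_le_one_left (norm_nonneg _) hν)
    have hint : ∫ g, m g * (‖F (g⁻¹ * x)‖ - inner ℝ ν (F (g⁻¹ * x))) ∂(vol V) = 0 := by
      have e1 : (fun g => m g * (‖F (g⁻¹ * x)‖ - inner ℝ ν (F (g⁻¹ * x)))) =
          fun g => m g * ‖F (g⁻¹ * x)‖ - inner ℝ ν (m g • F (g⁻¹ * x)) := by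
        funext g
        rw [inner_smul_right]
        ring
      rw [e1, integral_sub i2 (i1.const_inner ν), integral_inner i1 ν, ← hw, hνw, ← hx, sub_self]
    by_contra hne
    have hlt : inner ℝ ν (F (g⁻¹ * x)) < ‖F (g⁻¹ * x)‖ := lt_of_le_of_ne (hn g) hne
    have hpos := Continuous.integral_pos_of_hasCompactSupport_nonneg_nonzero (μ := vol V) (x := g)
      (f := fun g => m g * (‖F (g⁻¹ * x)‖ - inner ℝ ν (F (g⁻¹ * x))))
      (hmc.mul (hG.norm.sub (continuous_const.inner hG))) hm.supp.mul_right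
      (fun g => mul_nonneg (hm.nonneg g) (sub_nonneg.2 (hn g)))
      (mul_ne_zero hg (sub_pos.2 hlt).ne')
    rw [hint] at hpos
    exact lt_irrefl _ hpos
  rcases eq_or_ne w 0 with h0 | h0
  · refine ⟨0, fun g hg => ?_⟩
    have h1 := key 0 (by rw [norm_zero]; exact zero_le_one) (by rw [h0, inner_zero_left, norm_zero]) g hg
    rw [inner_zero_left] at h1
    rw [smul_zero]
    exact norm_eq_zero.1 h1.symm
  · have hw0 : 0 < ‖w‖ := norm_pos_iff.2 h0
    have hν1 : ‖‖w‖⁻¹ • w‖ = 1 := by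
      rw [norm_smul, norm_inv, norm_norm, inv_mul_cancel₀ hw0.ne']
    refine ⟨‖w‖⁻¹ • w, fun g hg => ?_⟩
    have h1 := key (‖w‖⁻¹ • w) hν1.le (by
      rw [real_inner_smul_left, real_inner_self_eq_norm_sq]
      field_simp) g hg
    have h2 : inner ℝ (‖w‖⁻¹ • w) (F (g⁻¹ * x)) = ‖‖w‖⁻¹ • w‖ * ‖F (g⁻¹ * x)‖ := by
      rw [h1, hν1, one_mul]
    rw [inner_eq_norm_mul_iff_real, hν1, one_smul] at h2
    exact h2.symm

end Pool.Agent.MLG
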